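import Pool.Agent.H477.O.Stm2

set_option autoImplicit false

/-! Project P (helper477), task 16266: `S_PFL` from `S_PLOG`, `S_PFAR`. After `Pool/Agent/H585/O/OFlat.lean`. -/

open Complex Filter Topology Metric Set

namespace Pool.Agent.H643.P

open Pool.Agent.H477.O

/-- the derivative of the logarithm of the norm along a horizontal line -/
theorem hasDerivAt_log_norm (f : ℂ → ℂ) (hf : Differentiable ℂ f) (z : ℂ) (s : ℝ)
    (h0 : f (z + s) ≠ 0) :
    HasDerivAt (fun x : ℝ => Real.log ‖f (z + x)‖) (logDeriv f (z + s)).re s := by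
  have h1 : HasDerivAt (fun x : ℝ => f (z + x)) (deriv f (z + s)) s := by
    have h2 : HasDerivAt (fun w : ℂ => f (z + w)) (deriv f (z + s)) ((s : ℝ) : ℂ) :=
      (hf (z + s)).hasDerivAt.comp_const_add z (s : ℂ)
    exact h2.comp_ofReal
  have h3 : HasDerivAt (fun x : ℝ => ‖f (z + x)‖ ^ 2) (2 * inner ℝ (f (z + s)) (deriv f (z + s))) s :=
    h1.norm_sq
  have hn : ‖f (z + s)‖ ≠ 0 := norm_ne_zero_iff.2 h0
  have hn2 : ‖f (z + s)‖ ^ 2 ≠ 0 := pow_ne_zero _ hn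
  have h4 := (h3.log hn2).const_mul (1 / 2 : ℝ)
  have h5 : (fun x : ℝ => 1 / 2 * Real.log (‖f (z + x)‖ ^ 2)) = fun x : ℝ => Real.log ‖f (z + x)‖ := by
    funext x
    rw [Real.log_pow]
    push_cast
    ring
  rw [h5] at h4
  have h6 : (1 / 2 : ℝ) * (2 * inner ℝ (f (z + s)) (deriv f (z + s)) / ‖f (z + s)‖ ^ 2) =
      (logDeriv f (z + s)).re := by
    rw [Complex.inner, logDeriv_apply, Complex.div_re, ← Complex.normSq_eq_norm_sq]
    have h7 : Complex.normSq (f (z + s)) ≠ 0 := by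
      rw [Complex.normSq_eq_norm_sq]; exact hn2
    simp only [Complex.mul_re, Complex.conj_re, Complex.conj_im]
    field_simp
    ring
  rw [h6] at h4
  exact h4

/-- comparison of the sizes along a horizontal segment -/
theorem log_norm_sub (f : ℂ → ℂ) (hf : Differentiable ℂ f) (z : ℂ) (t ℓ η : ℝ) (ht : 0 ≤ t)
    (h : ∀ s : ℝ, 0 ≤ s → s ≤ t → f (z + s) ≠ 0 ∧ ‖logDeriv f (z + s) - ℓ‖ ≤ η) :
    |Real.log ‖f (z + t)‖ - Real.log ‖f z‖ - ℓ * t| ≤ η * t := by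
  rcases eq_or_lt_of_le ht with h0 | h0
  · subst h0
    simp
  obtain ⟨c, hc, he⟩ := exists_hasDerivAt_eq_slope (fun x : ℝ => Real.log ‖f (z + x)‖)
    (fun x : ℝ => (logDeriv f (z + x)).re) h0
    (fun x hx => (hasDerivAt_log_norm f hf z x (h x hx.1 hx.2).1).continuousAt.continuousWithinAt)
    (fun x hx => hasDerivAt_log_norm f hf z x (h x hx.1.le hx.2.le).1)
  have h1 := (h c hc.1.le hc.2.le).2
  have h2 : |(logDeriv f (z + c)).re - ℓ| ≤ η := by
    have h3 := Complex.abs_re_le_norm (logDeriv f (z + c) - ℓ)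
    rw [Complex.sub_re, Complex.ofReal_re] at h3
    exact h3.trans h1
  simp only [Complex.ofReal_zero, add_zero, sub_zero] at he
  have h4 : Real.log ‖f (z + t)‖ - Real.log ‖f z‖ = (logDeriv f (z + c)).re * t := by
    rw [he]
    field_simp
  rw [h4, ← sub_mul, abs_mul, abs_of_pos h0]
  exact mul_le_mul_of_nonneg_right h2 h0.le

theorem t_PFL (hlog : S_PLOG) (hfar : S_PFAR) : S_PFL := by
  intro a K j R V κ ha hκ hR hV
  have hj : (0 : ℝ) ≤ j := Nat.cast_nonneg j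
  set P : ℝ := a + j + 3 with hP
  have hP3 : 3 < P := by linarith
  obtain ⟨A, ℓ₁, hA, hℓ₁, h1⟩ := hlog a K j R V ha hR hV
  obtain ⟨K', ℓ₂, hK', hℓ₂, h2⟩ := hfar a K j 1 R V zero_le_one (by linarith) (by linarith)
  -- the growth condition
  have hc0 : 0 < 2 * (2 * (j : ℝ) + K') / κ := by positivity
  have hev : ∀ᶠ x : ℝ in atTop, 2 * (2 * (j : ℝ) + K') / κ * Real.log x ^ 2 ≤ x := by
    have h3 := (Real.isLittleO_pow_log_id_atTop (n := 2)).bound
      (c := (2 * (2 * (j : ℝ) + K') / κ)⁻¹) (by positivity)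
    filter_upwards [h3, eventually_ge_atTop (0 : ℝ)] with x hx hx0
    rw [Real.norm_of_nonneg (by positivity), id, Real.norm_of_nonneg hx0, inv_mul_eq_div,
      le_div_iff₀ hc0] at hx
    rw [mul_comm]
    exact hx
  have hev2 : ∀ᶠ x : ℝ in atTop, 1 ≤ Real.log (Real.log x) :=
    (Real.tendsto_log_atTop.comp Real.tendsto_log_atTop).eventually_ge_atTop 1
  obtain ⟨ℓ₃, hℓ₃⟩ := eventually_atTop.1 (hev.and hev2)
  refine ⟨A, max (max ℓ₁ ℓ₂) ℓ₃, min 1 (κ / (4 * P)), hA,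
    le_trans hℓ₁ (le_trans (le_max_left _ _) (le_max_left _ _)),
    lt_min one_pos (by positivity), min_le_left _ _, ?_⟩
  intro X M ℓ y hX hℓ δ hδA hδ1 b hb0 hba hZF
  have l1 : ℓ₁ ≤ ℓ := le_trans (le_trans (le_max_left _ _) (le_max_left _ _)) hℓ
  have l2 : ℓ₂ ≤ ℓ := le_trans (le_trans (le_max_right _ _) (le_max_left _ _)) hℓ
  have l3 : ℓ₃ ≤ ℓ := le_trans (le_max_right _ _) hℓ
  obtain ⟨m1, m2⟩ := hℓ₃ ℓ l3
  have hℓ3 : 3 ≤ ℓ := le_trans hℓ₁ l1
  have hℓ1 : 1 ≤ ℓ := by linarith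
  have hlogℓ : 1 ≤ Real.log ℓ := by
    rw [Real.le_log_iff_exp_le (by linarith)]
    have := Real.exp_one_lt_d9
    linarith
  have hδ0 : 1 / Real.log ℓ ≤ δ := by
    refine le_trans ?_ hδA
    apply div_le_div_of_nonneg_right _ (by linarith)
    nlinarith
  have hδpos : 0 < δ := lt_of_lt_of_le (by positivity) hδ0
  have hδ2 : δ ≤ κ / (4 * P) := le_trans hδ1 (min_le_right _ _)
  have hδ3 : δ ≤ 1 := le_trans hδ1 (min_le_left _ _)
  set e : ℝ := κ * δ with he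
  have he0 : 0 < e := by positivity
  have hδP : δ * P ≤ κ / 4 := by
    calc δ * P ≤ κ / (4 * P) * P := mul_le_mul_of_nonneg_right hδ2 (by linarith)
      _ = κ / 4 := by field_simp
  have he'2 : δ ^ 2 * P ≤ e / 4 := by
    have : δ ^ 2 * P = δ * (δ * P) := by ring
    rw [this, he]
    nlinarith
  have he'1 : δ ^ 2 ≤ e := by
    have : δ ^ 2 * 1 ≤ δ ^ 2 * P := mul_le_mul_of_nonneg_left (by linarith) (by positivity)
    linarith
  -- the size of `e ℓ`
  have m3 : (2 * (j : ℝ) + K') * Real.log ℓ ≤ e / 2 * ℓ := by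
    have h4 : 2 * (2 * (j : ℝ) + K') * Real.log ℓ ^ 2 ≤ κ * ℓ := by
      have h5 := mul_le_mul_of_nonneg_left m1 hκ.le
      refine le_trans (le_of_eq ?_) h5
      field_simp
    have h6 : κ * ℓ ≤ e * Real.log ℓ * ℓ := by
      have h7 : 1 ≤ δ * Real.log ℓ := by
        rwa [div_le_iff₀ (by linarith)] at hδ0
      rw [he]
      have h8 : κ * ℓ * 1 ≤ κ * ℓ * (δ * Real.log ℓ) := mul_le_mul_of_nonneg_left h7 (by positivity)
      linarith
    have h9 : (2 * (j : ℝ) + K') * Real.log ℓ * (2 * Real.log ℓ) ≤ e / 2 * ℓ * (2 * Real.log ℓ) := by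
      nlinarith
    exact le_of_mul_le_mul_right h9 (by linarith)
  have m4 : (j : ℝ) * Real.log (2 * ℓ) + K' ≤ e / 2 * ℓ := by
    refine le_trans ?_ m3
    have h4 : Real.log (2 * ℓ) ≤ 2 * Real.log ℓ := by
      rw [Real.log_mul (by norm_num) (by linarith)]
      have : Real.log 2 ≤ Real.log ℓ := Real.log_le_log (by norm_num) (by linarith)
      linarith
    have h5 : (j : ℝ) * Real.log (2 * ℓ) ≤ j * (2 * Real.log ℓ) := mul_le_mul_of_nonneg_left h4 hj
    have h6 : K' * 1 ≤ K' * Real.log ℓ := mul_le_mul_of_nonneg_left hlogℓ (by linarith)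
    nlinarith
  have l5 : K' ≤ e / 2 * ℓ := by
    have h4 : 0 ≤ (j : ℝ) * Real.log (2 * ℓ) := mul_nonneg hj (Real.log_nonneg (by linarith))
    linarith
  have l6 : (2 * ℓ) ^ j * Real.exp K' ≤ Real.exp (e / 2 * ℓ) := by
    have h4 : (2 * ℓ) ^ j = Real.exp ((j : ℝ) * Real.log (2 * ℓ)) := by
      rw [Real.exp_nat_mul, Real.exp_log (by linarith)]
    rw [h4, ← Real.exp_add, Real.exp_le_exp]
    exact m4
  have hLog := h1 X M ℓ y hX l1 δ hδA hδ3 b hb0 hba hZF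
  have hd : Differentiable ℂ (iteratedDeriv j X) :=
    (hX.diff.contDiff (n := (j + 1 : ℕ))).differentiable_iteratedDeriv j (by exact_mod_cast Nat.lt_succ_self j)
  set f := iteratedDeriv j X with hf
  intro z hz1 hz2 hz3
  obtain ⟨hz0, hzl⟩ := hLog z (by linarith) hz2 hz3
  refine ⟨hz0, hzl.trans (mul_le_mul_of_nonneg_right he'1 (by linarith)), ?_⟩
  set t : ℝ := max 0 (1 / 2 + a + j - z.re) with ht
  have ht0 : 0 ≤ t := le_max_left _ _
  have ht1 : 1 / 2 + a + j - z.re ≤ t := le_max_right _ _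
  have ht2 : t ≤ P := max_le (by linarith) (by linarith)
  have ht3 : z.re + t ≤ 1 / 2 + R := by
    rcases max_cases 0 (1 / 2 + a + j - z.re) with ⟨h, -⟩ | ⟨h, -⟩
    · rw [← ht] at h; rw [h]; linarith
    · rw [← ht] at h; rw [h]; linarith
  have hseg : ∀ s : ℝ, 0 ≤ s → s ≤ t → f (z + s) ≠ 0 ∧ ‖logDeriv f (z + s) - ℓ‖ ≤ δ ^ 2 * ℓ := by
    intro s hs0 hs1
    have hre : (z + s).re = z.re + s := by simp
    have him : (z + s).im = z.im := by simp
    exact hLog (z + s) (by rw [hre]; linarith) (by rw [hre]; linarith) (by rw [him]; exact hz3)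
  have hkey := log_norm_sub f hd z t ℓ (δ ^ 2 * ℓ) ht0 hseg
  have hkey2 : δ ^ 2 * ℓ * t ≤ e / 4 * ℓ := by
    calc δ ^ 2 * ℓ * t ≤ δ ^ 2 * ℓ * P := mul_le_mul_of_nonneg_left ht2 (by positivity)
      _ = δ ^ 2 * P * ℓ := by ring
      _ ≤ e / 4 * ℓ := mul_le_mul_of_nonneg_right he'2 (by linarith)
  have hre : (z + t).re = z.re + t := by simp
  have him : (z + t).im = z.im := by simp
  obtain ⟨g0, -, g1, g2⟩ := h2 X M ℓ y hX l2 (z + t) (by rw [hre]; linarith) (by rw [hre]; exact ht3)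
    (by rw [him]; exact hz3)
  rw [hre] at g1 g2
  have hM := hX.hM
  have n0 : 0 < ‖f z‖ := norm_pos_iff.2 hz0
  have n1 : 0 < ‖f (z + t)‖ := norm_pos_iff.2 g0
  -- logarithms
  have k1 : Real.log M + (ℓ * (z.re + t - 1 / 2) - K') ≤ Real.log ‖f (z + t)‖ := by
    rw [← Real.log_exp (ℓ * (z.re + t - 1 / 2) - K'), ← Real.log_mul hM.ne' (Real.exp_pos _).ne']
    exact Real.log_le_log (by positivity) g1
  have k2 : Real.log ‖f (z + t)‖ ≤ Real.log M + (ℓ * (z.re + t - 1 / 2) + e / 2 * ℓ) := by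
    rw [← Real.log_exp (ℓ * (z.re + t - 1 / 2) + e / 2 * ℓ), ← Real.log_mul hM.ne' (Real.exp_pos _).ne']
    refine Real.log_le_log n1 (g2.trans ?_)
    rw [Real.exp_add, Real.exp_add, mul_assoc]
    refine mul_le_mul_of_nonneg_left ?_ hM.le
    calc (2 * ℓ) ^ j * (Real.exp (ℓ * (z.re + t - 1 / 2)) * Real.exp K')
        = Real.exp (ℓ * (z.re + t - 1 / 2)) * ((2 * ℓ) ^ j * Real.exp K') := by ring
      _ ≤ _ := mul_le_mul_of_nonneg_left l6 (Real.exp_pos _).le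
  rw [abs_le] at hkey
  obtain ⟨q1, q2⟩ := hkey
  have hpos : 0 < e * ℓ := by positivity
  constructor
  · have r1 : Real.log M + ℓ * (z.re - 1 / 2 - e) ≤ Real.log ‖f z‖ := by
      linarith
    rw [← Real.exp_log hM, ← Real.exp_add]
    calc _ ≤ Real.exp (Real.log ‖f z‖) := Real.exp_le_exp.2 r1
      _ = _ := Real.exp_log n0
  · have r2 : Real.log ‖f z‖ ≤ Real.log M + ℓ * (z.re - 1 / 2 + e) := by
      linarith
    calc ‖f z‖ = Real.exp (Real.log ‖f z‖) := (Real.exp_log n0).symm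
      _ ≤ Real.exp (Real.log M + ℓ * (z.re - 1 / 2 + e)) := Real.exp_le_exp.2 r2
      _ = _ := by rw [Real.exp_add, Real.exp_log hM]

end Pool.Agent.H643.P
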